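import Mathlib

set_option autoImplicit false

namespace Pool.Agent.Lib.MP_0e848e_co

/-- Block 0 of the chamber table. -/
def dat0 : List (ℕ × ℕ × List ℤ) :=
  [(32, 0, [-1, -5, -4, -3, -2]), (33, 1, [1, -4, -3, -2, -1]), (49, 2, [2, -3, -2, -1, 1]),
   (57, 2, [3, -2, -1, 1, 2]), (61, 1, [4, -1, 1, 2, 3]), (63, 0, [5, 1, 2, 3, 4]),
   (64, 0, [-2, -1, -5, -4, -3]), (66, 1, [-1, 1, -4, -3, -2]), (67, 2, [1, 2, -3, -2, -1]),
   (83, 2, [2, 3, -2, -1, 1])]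

/-- Block 1 of the chamber table. -/
def dat1 : List (ℕ × ℕ × List ℤ) :=
  [(91, 1, [3, 4, -1, 1, 2]), (95, 0, [4, 5, 1, 2, 3]), (96, 3, [-1, -4, -5, -3, -2]),
   (97, 4, [1, -3, -4, -2, -1]), (99, 5, [2, 1, -3, -2, -1]), (113, 4, [2, -2, -3, -1, 1]),
   (115, 4, [3, 1, -2, -1, 2]), (121, 5, [3, -1, -2, 1, 2]), (123, 4, [4, 1, -1, 2, 3]),
   (127, 3, [5, 2, 1, 3, 4])]

/-- Block 2 of the chamber table. -/
def dat2 : List (ℕ × ℕ × List ℤ) :=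
  [(128, 0, [-3, -2, -1, -5, -4]), (132, 1, [-2, -1, 1, -4, -3]), (134, 2, [-1, 1, 2, -3, -2]),
   (135, 2, [1, 2, 3, -2, -1]), (151, 1, [2, 3, 4, -1, 1]), (159, 0, [3, 4, 5, 1, 2]),
   (160, 6, [-2, -5, -1, -4, -3]), (161, 4, [1, -4, -2, -3, -1]), (164, 7, [-1, -4, 1, -3, -2]),
   (165, 8, [1, -3, 2, -2, -1])]

/-- Block 3 of the chamber table. -/
def dat3 : List (ℕ × ℕ × List ℤ) :=
  [(167, 9, [2, 1, 3, -2, -1]), (177, 9, [2, -3, -1, -2, 1]), (181, 8, [2, -2, 3, -1, 1]),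
   (183, 4, [3, 1, 4, -1, 2]), (189, 7, [3, -1, 4, 1, 2]), (191, 6, [4, 1, 5, 2, 3]),
   (192, 3, [-3, -1, -2, -5, -4]), (194, 4, [-2, 1, -1, -4, -3]), (195, 4, [1, 2, -2, -3, -1]),
   (198, 5, [-1, 2, 1, -3, -2])]

/-- Block 4 of the chamber table. -/
def dat4 : List (ℕ × ℕ × List ℤ) :=
  [(199, 4, [1, 3, 2, -2, -1]), (211, 5, [2, 3, -1, -2, 1]), (215, 4, [2, 4, 3, -1, 1]),
   (223, 3, [3, 5, 4, 1, 2]), (224, 3, [-1, -3, -4, -5, -2]), (225, 4, [1, -2, -3, -4, -1]),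
   (227, 4, [2, 1, -2, -3, -1]), (231, 5, [3, 2, 1, -2, -1]), (241, 5, [2, -1, -2, -3, 1]),
   (243, 4, [3, 1, -1, -2, 2])]

/-- Block 5 of the chamber table. -/
def dat5 : List (ℕ × ℕ × List ℤ) :=
  [(247, 4, [4, 2, 1, -1, 3]), (255, 3, [5, 3, 2, 1, 4]), (256, 0, [-4, -3, -2, -1, -5]),
   (264, 1, [-3, -2, -1, 1, -4]), (268, 2, [-2, -1, 1, 2, -3]), (270, 2, [-1, 1, 2, 3, -2]),
   (271, 1, [1, 2, 3, 4, -1]), (287, 0, [2, 3, 4, 5, 1]), (288, 6, [-3, -5, -2, -1, -4]),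
   (289, 7, [1, -4, -3, -1, -2])]

/-- Block 6 of the chamber table. -/
def dat6 : List (ℕ × ℕ × List ℤ) :=
  [(296, 4, [-2, -4, -1, 1, -3]), (297, 8, [1, -3, -2, 2, -1]), (300, 9, [-1, -3, 1, 2, -2]),
   (301, 8, [1, -2, 2, 3, -1]), (303, 7, [2, 1, 3, 4, -1]), (313, 9, [2, -2, -1, 3, 1]),
   (317, 4, [2, -1, 3, 4, 1]), (319, 6, [3, 1, 4, 5, 2]), (320, 6, [-4, -2, -3, -1, -5]),
   (322, 4, [-3, 1, -2, -1, -4])]

/-- Block 7 of the chamber table. -/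
def dat7 : List (ℕ × ℕ × List ℤ) :=
  [(323, 9, [1, 2, -3, -1, -2]), (328, 7, [-3, -1, -2, 1, -4]), (330, 8, [-2, 1, -1, 2, -3]),
   (331, 8, [1, 2, -2, 3, -1]), (334, 9, [-1, 2, 1, 3, -2]), (335, 4, [1, 3, 2, 4, -1]),
   (347, 7, [2, 3, -1, 4, 1]), (351, 6, [2, 4, 3, 5, 1]), (352, 6, [-2, -4, -5, -1, -3]),
   (353, 4, [1, -3, -4, -1, -2])]

/-- Block 8 of the chamber table. -/
def dat8 : List (ℕ × ℕ × List ℤ) :=
  [(355, 9, [2, 1, -3, -1, -2]), (360, 7, [-1, -3, -4, 1, -2]), (361, 8, [1, -2, -3, 2, -1]),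
   (363, 8, [2, 1, -2, 3, -1]), (367, 7, [3, 2, 1, 4, -1]), (377, 9, [2, -1, -2, 3, 1]),
   (379, 4, [3, 1, -1, 4, 2]), (383, 6, [4, 2, 1, 5, 3]), (384, 3, [-4, -3, -1, -2, -5]),
   (388, 4, [-3, -2, 1, -1, -4])]

/-- Block 9 of the chamber table. -/
def dat9 : List (ℕ × ℕ × List ℤ) :=
  [(390, 4, [-2, 1, 2, -1, -3]), (391, 5, [1, 2, 3, -1, -2]), (396, 5, [-2, -1, 2, 1, -3]),
   (398, 4, [-1, 1, 3, 2, -2]), (399, 4, [1, 2, 4, 3, -1]), (415, 3, [2, 3, 5, 4, 1]),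
   (416, 6, [-3, -5, -1, -2, -4]), (417, 7, [1, -4, -1, -2, -3]), (420, 4, [-2, -4, 1, -1, -3]),
   (421, 8, [1, -3, 2, -1, -2])]

/-- Block 10 of the chamber table. -/
def dat10 : List (ℕ × ℕ × List ℤ) :=
  [(423, 9, [2, 1, 3, -1, -2]), (428, 9, [-1, -3, 2, 1, -2]), (429, 8, [1, -2, 3, 2, -1]),
   (431, 4, [2, 1, 4, 3, -1]), (445, 7, [2, -1, 4, 3, 1]), (447, 6, [3, 1, 5, 4, 2]),
   (448, 3, [-4, -1, -2, -3, -5]), (450, 4, [-3, 1, -1, -2, -4]), (451, 5, [1, 2, -1, -2, -3]),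
   (454, 4, [-2, 2, 1, -1, -3])]

/-- Block 11 of the chamber table. -/
def dat11 : List (ℕ × ℕ × List ℤ) :=
  [(455, 4, [1, 3, 2, -1, -2]), (462, 5, [-1, 3, 2, 1, -2]), (463, 4, [1, 4, 3, 2, -1]),
   (479, 3, [2, 5, 4, 3, 1]), (480, 0, [-1, -2, -3, -4, -5]), (481, 1, [1, -1, -2, -3, -4]),
   (483, 2, [2, 1, -1, -2, -3]), (487, 2, [3, 2, 1, -1, -2]), (495, 1, [4, 3, 2, 1, -1]),
   (511, 0, [5, 4, 3, 2, 1])]

/-- Block 12 of the chamber table. -/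
def dat12 : List (ℕ × ℕ × List ℤ) :=
  [(512, 0, [-5, -4, -3, -2, -1]), (528, 1, [-4, -3, -2, -1, 1]), (536, 2, [-3, -2, -1, 1, 2]),
   (540, 2, [-2, -1, 1, 2, 3]), (542, 1, [-1, 1, 2, 3, 4]), (543, 0, [1, 2, 3, 4, 5]),
   (544, 3, [-4, -5, -3, -2, -1]), (560, 4, [-3, -4, -2, -1, 1]), (561, 5, [1, -3, -2, -1, 2]),
   (568, 4, [-2, -3, -1, 1, 2])]

/-- Block 13 of the chamber table. -/
def dat13 : List (ℕ × ℕ × List ℤ) :=
  [(569, 4, [1, -2, -1, 2, 3]), (572, 5, [-1, -2, 1, 2, 3]), (573, 4, [1, -1, 2, 3, 4]),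
   (575, 3, [2, 1, 3, 4, 5]), (576, 6, [-5, -3, -4, -2, -1]), (578, 7, [-4, 1, -3, -2, -1]),
   (592, 4, [-4, -2, -3, -1, 1]), (594, 8, [-3, 1, -2, -1, 2]), (595, 9, [1, 2, -2, -1, 3]),
   (600, 9, [-3, -1, -2, 1, 2])]

/-- Block 14 of the chamber table. -/
def dat14 : List (ℕ × ℕ × List ℤ) :=
  [(602, 8, [-2, 1, -1, 2, 3]), (603, 4, [1, 2, -1, 3, 4]), (606, 7, [-1, 2, 1, 3, 4]),
   (607, 6, [1, 3, 2, 4, 5]), (608, 3, [-3, -4, -5, -2, -1]), (624, 4, [-2, -3, -4, -1, 1]),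
   (625, 4, [1, -2, -3, -1, 2]), (627, 5, [2, 1, -2, -1, 3]), (632, 5, [-1, -2, -3, 1, 2]),
   (633, 4, [1, -1, -2, 2, 3])]

/-- Block 15 of the chamber table. -/
def dat15 : List (ℕ × ℕ × List ℤ) :=
  [(635, 4, [2, 1, -1, 3, 4]), (639, 3, [3, 2, 1, 4, 5]), (640, 6, [-5, -4, -2, -3, -1]),
   (644, 4, [-4, -3, 1, -2, -1]), (646, 9, [-3, 1, 2, -2, -1]), (656, 7, [-4, -3, -1, -2, 1]),
   (660, 8, [-3, -2, 1, -1, 2]), (662, 8, [-2, 1, 2, -1, 3]), (663, 7, [1, 2, 3, -1, 4]),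
   (668, 9, [-2, -1, 2, 1, 3])]

/-- Block 16 of the chamber table. -/
def dat16 : List (ℕ × ℕ × List ℤ) :=
  [(670, 4, [-1, 1, 3, 2, 4]), (671, 6, [1, 2, 4, 3, 5]), (672, 6, [-4, -5, -2, -3, -1]),
   (676, 7, [-3, -4, 1, -2, -1]), (688, 4, [-3, -4, -1, -2, 1]), (689, 9, [1, -3, -1, -2, 2]),
   (692, 8, [-2, -3, 1, -1, 2]), (693, 8, [1, -2, 2, -1, 3]), (695, 7, [2, 1, 3, -1, 4]),
   (700, 9, [-1, -2, 2, 1, 3])]

/-- Block 17 of the chamber table. -/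
def dat17 : List (ℕ × ℕ × List ℤ) :=
  [(701, 4, [1, -1, 3, 2, 4]), (703, 6, [2, 1, 4, 3, 5]), (704, 6, [-5, -2, -3, -4, -1]),
   (706, 4, [-4, 1, -2, -3, -1]), (710, 9, [-3, 2, 1, -2, -1]), (720, 7, [-4, -1, -2, -3, 1]),
   (722, 8, [-3, 1, -1, -2, 2]), (723, 9, [1, 2, -1, -2, 3]), (726, 8, [-2, 2, 1, -1, 3]),
   (727, 4, [1, 3, 2, -1, 4])]

/-- Block 18 of the chamber table. -/
def dat18 : List (ℕ × ℕ × List ℤ) :=
  [(734, 7, [-1, 3, 2, 1, 4]), (735, 6, [1, 4, 3, 2, 5]), (736, 0, [-2, -3, -4, -5, -1]),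
   (752, 1, [-1, -2, -3, -4, 1]), (753, 2, [1, -1, -2, -3, 2]), (755, 2, [2, 1, -1, -2, 3]),
   (759, 1, [3, 2, 1, -1, 4]), (767, 0, [4, 3, 2, 1, 5]), (768, 3, [-5, -4, -3, -1, -2]),
   (776, 4, [-4, -3, -2, 1, -1])]

/-- Block 19 of the chamber table. -/
def dat19 : List (ℕ × ℕ × List ℤ) :=
  [(780, 4, [-3, -2, 1, 2, -1]), (782, 5, [-2, 1, 2, 3, -1]), (792, 5, [-3, -2, -1, 2, 1]),
   (796, 4, [-2, -1, 1, 3, 2]), (798, 4, [-1, 1, 2, 4, 3]), (799, 3, [1, 2, 3, 5, 4]),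
   (800, 3, [-4, -5, -3, -1, -2]), (808, 4, [-3, -4, -2, 1, -1]), (812, 5, [-2, -3, 1, 2, -1]),
   (824, 4, [-2, -3, -1, 2, 1])]

/-- Block 20 of the chamber table. -/
def dat20 : List (ℕ × ℕ × List ℤ) :=
  [(825, 5, [1, -2, -1, 3, 2]), (828, 4, [-1, -2, 1, 3, 2]), (829, 4, [1, -1, 2, 4, 3]),
   (831, 3, [2, 1, 3, 5, 4]), (832, 6, [-5, -3, -4, -1, -2]), (834, 7, [-4, 1, -3, -1, -2]),
   (840, 4, [-4, -2, -3, 1, -1]), (842, 8, [-3, 1, -2, 2, -1]), (846, 9, [-2, 2, 1, 3, -1]),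
   (856, 9, [-3, -1, -2, 2, 1])]

/-- Block 21 of the chamber table. -/
def dat21 : List (ℕ × ℕ × List ℤ) :=
  [(858, 8, [-2, 1, -1, 3, 2]), (859, 7, [1, 2, -1, 4, 3]), (862, 4, [-1, 2, 1, 4, 3]),
   (863, 6, [1, 3, 2, 5, 4]), (864, 0, [-3, -4, -5, -1, -2]), (872, 1, [-2, -3, -4, 1, -1]),
   (888, 2, [-1, -2, -3, 2, 1]), (889, 2, [1, -1, -2, 3, 2]), (891, 1, [2, 1, -1, 4, 3]),
   (895, 0, [3, 2, 1, 5, 4])]

/-- Block 22 of the chamber table. -/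
def dat22 : List (ℕ × ℕ × List ℤ) :=
  [(896, 3, [-5, -4, -1, -2, -3]), (900, 4, [-4, -3, 1, -1, -2]), (902, 5, [-3, 1, 2, -1, -2]),
   (908, 4, [-3, -2, 2, 1, -1]), (910, 4, [-2, 1, 3, 2, -1]), (924, 5, [-2, -1, 3, 2, 1]),
   (926, 4, [-1, 1, 4, 3, 2]), (927, 3, [1, 2, 5, 4, 3]), (928, 0, [-4, -5, -1, -2, -3]),
   (932, 1, [-3, -4, 1, -1, -2])]

/-- Block 23 of the chamber table. -/
def dat23 : List (ℕ × ℕ × List ℤ) :=
  [(940, 2, [-2, -3, 2, 1, -1]), (956, 2, [-1, -2, 3, 2, 1]), (957, 1, [1, -1, 4, 3, 2]),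
   (959, 0, [2, 1, 5, 4, 3]), (960, 0, [-5, -1, -2, -3, -4]), (962, 1, [-4, 1, -1, -2, -3]),
   (966, 2, [-3, 2, 1, -1, -2]), (974, 2, [-2, 3, 2, 1, -1]), (990, 1, [-1, 4, 3, 2, 1]),
   (991, 0, [1, 5, 4, 3, 2])]

/-- For each chamber of the wheel arrangement: sign mask, weight type, and a point. -/
def data : List (ℕ × ℕ × List ℤ) :=
  dat0 ++ (dat1 ++ (dat2 ++ (dat3 ++ (dat4 ++ (dat5 ++ (dat6 ++ (dat7 ++ (dat8 ++ (dat9 ++ (dat10 ++ (dat11 ++ (dat12 ++ (dat13 ++ (dat14 ++ (dat15 ++ (dat16 ++ (dat17 ++ (dat18 ++ (dat19 ++ (dat20 ++ (dat21 ++ (dat22 ++ (dat23)))))))))))))))))))))))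

/-- Numerators of the weights. -/
def tbl : List (List ℤ) :=
  [[1, 1, 3, 3, 5, 4, 5, 4, 5, 3, 3, 1, 1],
   [1, 1, 2, 2, 4, 3, 4, 3, 4, 2, 2, 1, 1],
   [1, 1, 1, 1, 2, 1, 1, 1, 2, 1, 1, 1, 1],
   [1, 0, 1, 0, 2, 1, 2, 1, 2, 0, 1, 0, 1],
   [1, 0, 0, -1, 0, -2, -1, -2, 0, -1, 0, 0, 1],
   [1, 1, 2, 3, 5, 5, 6, 5, 5, 3, 2, 1, 1],
   [1, -1, 0, -3, -1, -4, -2, -4, -1, -3, 0, -1, 1],
   [1, 1, 2, 2, 5, 4, 5, 4, 5, 2, 2, 1, 1],
   [1, 1, 0, 0, 1, 0, -1, 0, 1, 0, 0, 1, 1],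
   [1, 1, 1, 2, 3, 3, 3, 3, 3, 2, 1, 1, 1]]

/-- Common denominator of the weights. -/
def den : List ℤ :=
  [1, 6, 19, 43, 78, 121, 168, 215, 258, 293, 316, 324, 316, 293, 258, 215, 168, 121, 78, 43, 19, 6, 1]

/-- Hamming distance of two ten-bit masks. -/
def dm (a b : ℕ) : ℕ :=
  ((a ^^^ b).testBit 0).toNat + ((a ^^^ b).testBit 1).toNat + ((a ^^^ b).testBit 2).toNat +
  ((a ^^^ b).testBit 3).toNat + ((a ^^^ b).testBit 4).toNat + ((a ^^^ b).testBit 5).toNat +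
  ((a ^^^ b).testBit 6).toNat + ((a ^^^ b).testBit 7).toNat + ((a ^^^ b).testBit 8).toNat +
  ((a ^^^ b).testBit 9).toNat

/-- Addition of coefficient lists. -/
def addL : List ℤ → List ℤ → List ℤ
  | [], b => b
  | a :: as, [] => a :: as
  | a :: as, b :: bs => (a + b) :: addL as bs

/-- The row sum of the Varchenko matrix against the weight numerators. -/
def row (a : ℕ) (l : List (ℕ × ℕ × List ℤ)) : List ℤ :=
  l.foldr (fun e acc => addL (List.replicate (dm a e.1) 0 ++ tbl.getD e.2.1 []) acc) []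

/-- Values of the numerators at `2 ^ 16`. -/
def vals : List ℕ :=
  [6277197520742556697819173770565614520724220490146425929729,
   6277197519281032759402784762441761782540130706425190088705,
   6277197517819508820646108194941654512092242750885884657665,
   6277101736848182401847262267708544244564257987447809376257,
   6277101735386658463090580507911577230362921886783000018945,
   6277197519281055060488276044738017594275649953205246296065,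
   6277005954415309743206243298382211151099417876564868530177,
   6277197519281032759743072321738788152289664540649715728385,
   6277197516357984882229719186738573611393888629571104866305,
   6277197517819531121731599477237910323827761997665940865025]

/-- Table of popcounts, four bits per entry. -/
def pcT : ℕ :=
  0xa9989887988787769887877687767665988787768776766587767665766565549887877687767665877676657665655487767665766565547665655465545443988787768776766587767665766565548776766576656554766565546554544387767665766565547665655465545443766565546554544365545443544343329887877687767665877676657665655487767665766565547665655465545443877676657665655476656554655454437665655465545443655454435443433287767665766565547665655465545443766565546554544365545443544343327665655465545443655454435443433265545443544343325443433243323221988787768776766587767665766565548776766576656554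76656554655454438776766576656554766565546554544376656554655454436554544354434332877676657665655476656554655454437665655465545443655454435443433276656554655454436554544354434332655454435443433254434332433232218776766576656554766565546554544376656554655454436554544354434332766565546554544365545443544343326554544354434332544343324332322176656554655454436554544354434332655454435443433254434332433232216554544354434332544343324332322154434332433232214332322132212110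

/-- Fast Hamming distance. -/
def dmF (a b : ℕ) : ℕ := Nat.mod (Nat.shiftRight pcT (Nat.mul 4 (Nat.xor a b))) 16

theorem dmF_aux : ∀ c < 1024, dm c 0 = dmF c 0 := by decide +kernel

theorem dm_eq_dmF {a b : ℕ} (ha : a < 1024) (hb : b < 1024) : dm a b = dmF a b := by
  have h := dmF_aux (a ^^^ b) (Nat.xor_lt_two_pow (n := 10) ha hb)
  have h1 : dm (a ^^^ b) 0 = dm a b := by simp [dm]
  have h2 : dmF (a ^^^ b) 0 = dmF a b := by
    have : Nat.xor (a ^^^ b) 0 = Nat.xor a b := Nat.xor_zero _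
    simp only [dmF, this]
  rw [← h1, ← h2, h]

/-- The row sum evaluated at `2 ^ 16`. -/
def rowN (a : ℕ) (l : List (ℕ × ℕ × List ℤ)) : ℕ :=
  l.foldr (fun e acc => Nat.add (Nat.shiftLeft (vals.getD e.2.1 0) (Nat.mul 16 (dmF a e.1))) acc) 0

theorem rowN_eq : ∀ e ∈ data, rowN e.1 data =
    9174834408823757925063382988006726063965498494837769322918625806893564883230664979047688850159438678851585 := by
  decide +kernel

theorem type_lt : ∀ e ∈ data, e.2.1 < 10 ∧ e.1 < 1024 := by decide +kernel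

theorem data_pairwise : data.Pairwise (fun e e' => dmF e.1 e'.1 ≠ 0) := by decide +kernel

/-- Integer version of the ten linear forms. -/
def Fz (j : Fin 10) (v : List ℤ) : ℤ :=
  ![v.getD 0 0, v.getD 1 0, v.getD 2 0, v.getD 3 0, v.getD 4 0, v.getD 0 0 - v.getD 1 0,
    v.getD 1 0 - v.getD 2 0, v.getD 2 0 - v.getD 3 0, v.getD 3 0 - v.getD 4 0,
    v.getD 4 0 - v.getD 0 0] j

theorem data_sign : ∀ e ∈ data, ∀ j : Fin 10,
    Fz j e.2.2 ≠ 0 ∧ e.1.testBit j = decide (0 < Fz j e.2.2) := by decide +kernel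

set_option synthInstance.maxSize 100000 in
theorem data_all : ∀ b0 b1 b2 b3 b4 b5 b6 b7 b8 b9 : Bool,
    ¬ (b0 ∧ ¬ b1 ∧ ¬ b5) → ¬ (¬ b0 ∧ b1 ∧ b5) → ¬ (b1 ∧ ¬ b2 ∧ ¬ b6) → ¬ (¬ b1 ∧ b2 ∧ b6) →
    ¬ (b2 ∧ ¬ b3 ∧ ¬ b7) → ¬ (¬ b2 ∧ b3 ∧ b7) → ¬ (b3 ∧ ¬ b4 ∧ ¬ b8) → ¬ (¬ b3 ∧ b4 ∧ b8) →
    ¬ (b4 ∧ ¬ b0 ∧ ¬ b9) → ¬ (¬ b4 ∧ b0 ∧ b9) → ¬ (b5 ∧ b6 ∧ b7 ∧ b8 ∧ b9) →
    ¬ (¬ b5 ∧ ¬ b6 ∧ ¬ b7 ∧ ¬ b8 ∧ ¬ b9) →
    ∃ e ∈ data, e.1.testBit 0 = b0 ∧ e.1.testBit 1 = b1 ∧ e.1.testBit 2 = b2 ∧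
      e.1.testBit 3 = b3 ∧ e.1.testBit 4 = b4 ∧ e.1.testBit 5 = b5 ∧ e.1.testBit 6 = b6 ∧
      e.1.testBit 7 = b7 ∧ e.1.testBit 8 = b8 ∧ e.1.testBit 9 = b9 := by decide +kernel

theorem ker_test : ∀ j j' : Fin 10, j ≠ j' → ∃ v ∈
    ([[0, 2, 3, 4, 5], [1, 0, 3, 4, 5], [1, 2, 0, 4, 5], [1, 2, 3, 0, 5], [1, 2, 3, 4, 0],
      [1, 1, 3, 4, 5], [1, 2, 2, 4, 5], [1, 2, 3, 3, 5], [1, 2, 3, 4, 4], [5, 2, 3, 4, 5]] :
      List (List ℤ)), Fz j v = 0 ∧ Fz j' v ≠ 0 := by decide +kernel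

theorem data_length : data.length = 240 := by decide +kernel

theorem deg_a : (data.filter (fun e => dm 32 e.1 = 1)).length = 5 := by decide +kernel

theorem deg_b : (data.filter (fun e => dm 96 e.1 = 1)).length = 6 := by decide +kernel

theorem mem_a : ∃ e ∈ data, e.1 = 32 := by decide +kernel

theorem mem_b : ∃ e ∈ data, e.1 = 96 := by decide +kernel

end Pool.Agent.Lib.MP_0e848e_co
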