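import Mathlib

set_option autoImplicit false

namespace Pool.Agent.Lib.MP_0e848e_co

/-- A (central) arrangement in `ℝ^d`: a finite set of linear hyperplanes. -/
structure Arrangement (d : ℕ) where
  /-- the hyperplanes -/
  hyps : Finset (Submodule ℝ (Fin d → ℝ))
  /-- each member has dimension `d - 1` -/
  isHyp : ∀ H ∈ hyps, Module.finrank ℝ H + 1 = d

/-- The rank of a finite set of subspaces of `ℝ^d`: the codimension of their intersection. -/
noncomputable def rk {d : ℕ} (B : Finset (Submodule ℝ (Fin d → ℝ))) : ℕ :=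
  d - Module.finrank ℝ (⨅ H ∈ B, H : Submodule ℝ (Fin d → ℝ))

/-- The complement of the union of the hyperplanes. -/
def Arrangement.compl {d : ℕ} (A : Arrangement d) : Set (Fin d → ℝ) :=
  {x | ∀ H ∈ A.hyps, x ∉ H}

/-- The chambers: connected components of the complement. -/
def Arrangement.Chamber {d : ℕ} (A : Arrangement d) : Type :=
  {C : Set (Fin d → ℝ) // ∃ x ∈ A.compl, C = connectedComponentIn A.compl x}

/-- `H` separates `C` and `D`: they lie in the two opposite open half-spaces of `H`. -/
def Separates {d : ℕ} (H : Submodule ℝ (Fin d → ℝ)) (C D : Set (Fin d → ℝ)) : Prop :=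
  ∃ f : (Fin d → ℝ) →ₗ[ℝ] ℝ, LinearMap.ker f = H ∧ (∀ x ∈ C, 0 < f x) ∧ (∀ y ∈ D, f y < 0)

/-- The number of hyperplanes of `A` separating two chambers. -/
noncomputable def Arrangement.sep {d : ℕ} (A : Arrangement d) (C D : A.Chamber) : ℕ :=
  {H | H ∈ A.hyps ∧ Separates H C.1 D.1}.ncard

/-- The tope graph: chambers are adjacent when exactly one hyperplane separates them. -/
def Arrangement.topeGraph {d : ℕ} (A : Arrangement d) : SimpleGraph A.Chamber :=
  SimpleGraph.fromRel (fun C D => A.sep C D = 1)

/-- A graph is vertex-transitive when its automorphisms act transitively on the vertices. -/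
def VertexTransitive {V : Type} (G : SimpleGraph V) : Prop :=
  ∀ u v : V, ∃ φ : G ≃g G, φ u = v

/-- An arrangement is irreducible when it is not a product: the rank is not additive over any
partition of its hyperplanes into two nonempty parts. -/
def Arrangement.Irreducible {d : ℕ} (A : Arrangement d) : Prop :=
  ∀ B B' : Finset (Submodule ℝ (Fin d → ℝ)), B.Nonempty → B'.Nonempty → Disjoint B B' →
    (∀ H, H ∈ A.hyps ↔ H ∈ B ∨ H ∈ B') → rk A.hyps < rk B + rk B'

/-- The component of a point in the complement of finitely many kernels is its sign cell. -/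
theorem component_eq {d : ℕ} {ι : Type} (f : ι → ((Fin d → ℝ) →ₗ[ℝ] ℝ)) (S : Set (Fin d → ℝ))
    (hS : ∀ x, x ∈ S ↔ ∀ j, f j x ≠ 0) (x : Fin d → ℝ) (hx : x ∈ S) :
    connectedComponentIn S x = {y | ∀ j, 0 < f j x * f j y} := by
  apply Set.Subset.antisymm
  · intro y hy j
    by_contra hneg
    push Not at hneg
    have hc : Continuous (fun z => f j x * f j z) :=
      continuous_const.mul (f j).continuous_of_finiteDimensional
    obtain ⟨z, hz, hz0⟩ := isPreconnected_connectedComponentIn.intermediate_value hy
      (mem_connectedComponentIn hx) hc.continuousOn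
      (show (0 : ℝ) ∈ Set.Icc _ _ from ⟨hneg, mul_self_nonneg _⟩)
    exact mul_ne_zero ((hS x).1 hx j) ((hS z).1 (connectedComponentIn_subset _ _ hz) j) hz0
  · apply IsPreconnected.subset_connectedComponentIn
    · apply Convex.isPreconnected
      have : {y | ∀ j, 0 < f j x * f j y} = ⋂ j, {y | 0 < (f j x • f j) y} := by
        ext y; simp
      rw [this]
      exact convex_iInter fun j => convex_halfSpace_gt (f j x • f j).isLinear 0
    · intro j
      exact mul_self_pos.2 ((hS x).1 hx j)
    · intro y hy
      exact (hS y).2 fun j h => by simpa [h] using hy j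

/-- An arrangement has finitely many chambers. -/
instance Arrangement.finite_chamber {d : ℕ} (A : Arrangement d) : Finite A.Chamber := by
  classical
  have hex : ∀ H : A.hyps, ∃ f : (Fin d → ℝ) →ₗ[ℝ] ℝ, LinearMap.ker f = H.1 := by
    rintro ⟨H, hH⟩
    have h1 := A.isHyp H hH
    have hlt : H < ⊤ := by
      rw [lt_top_iff_ne_top]
      rintro rfl
      simp at h1
    obtain ⟨f, hf0, hf⟩ := Submodule.exists_le_ker_of_lt_top H hlt
    refine ⟨f, (Submodule.eq_of_le_of_finrank_eq hf ?_).symm⟩
    have h2 := Module.Dual.finrank_ker_add_one_of_ne_zero hf0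
    simp only [Module.finrank_fin_fun] at h2
    omega
  choose f hf using hex
  have hS : ∀ x, x ∈ A.compl ↔ ∀ j, f j x ≠ 0 := by
    intro x
    constructor
    · intro hx j h
      exact hx j.1 j.2 (by rw [← hf j]; exact h)
    · intro h H hH hxH
      exact h ⟨H, hH⟩ (by rw [← LinearMap.mem_ker, hf]; exact hxH)
  refine Finite.of_injective (fun C : A.Chamber => fun j => decide (0 < f j C.2.choose)) ?_
  intro C D h
  apply Subtype.ext
  rw [C.2.choose_spec.2, D.2.choose_spec.2, component_eq f _ hS _ C.2.choose_spec.1,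
    component_eq f _ hS _ D.2.choose_spec.1]
  ext y
  refine forall_congr' fun j => ?_
  have h1 : 0 < f j C.2.choose ↔ 0 < f j D.2.choose := by simpa using congrFun h j
  have h2 := (hS _).1 C.2.choose_spec.1 j
  have h3 := (hS _).1 D.2.choose_spec.1 j
  rcases lt_or_gt_of_ne h2 with h4 | h4
  · have h5 : f j D.2.choose < 0 := lt_of_le_of_ne (not_lt.1 fun h => h4.not_gt (h1.2 h)) h3
    rw [mul_pos_iff, mul_pos_iff]
    simp [h4, h5, h4.not_gt, h5.not_gt]
  · have h5 := h1.1 h4
    rw [mul_pos_iff_of_pos_left h4, mul_pos_iff_of_pos_left h5]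

/-- The `q`-Varchenko matrix over `ℚ(q)`. -/
noncomputable def Arrangement.varchenko {d : ℕ} (A : Arrangement d) :
    Matrix A.Chamber A.Chamber (RatFunc ℚ) :=
  fun C D => RatFunc.X ^ A.sep C D

open Classical in
/-- The magnitude: the sum of all entries of the inverse of the Varchenko matrix. -/
noncomputable def Arrangement.mag {d : ℕ} (A : Arrangement d) : RatFunc ℚ :=
  letI := Fintype.ofFinite A.Chamber
  ∑ C, ∑ D, (A.varchenko)⁻¹ C D

end Pool.Agent.Lib.MP_0e848e_co
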