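import Pool.Agent.Lib.MP_0e848e_co.Data

set_option autoImplicit false

namespace Pool.Agent.Lib.MP_0e848e_co

/-- Horner evaluation of a coefficient list. -/
def ev {R : Type} [CommRing R] (l : List ℤ) (x : R) : R :=
  l.foldr (fun c acc => (c : R) + x * acc) 0

@[simp] theorem ev_nil {R : Type} [CommRing R] (x : R) : ev [] x = 0 := rfl

@[simp] theorem ev_cons {R : Type} [CommRing R] (c : ℤ) (l : List ℤ) (x : R) :
    ev (c :: l) x = (c : R) + x * ev l x := rfl

theorem ev_addL {R : Type} [CommRing R] (x : R) : ∀ a b : List ℤ,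
    ev (addL a b) x = ev a x + ev b x
  | [], b => by simp [addL]
  | a :: as, [] => by simp [addL]
  | a :: as, b :: bs => by
    simp only [addL, ev_cons, ev_addL x as bs]
    push_cast
    ring

theorem ev_shift {R : Type} [CommRing R] (x : R) (l : List ℤ) : ∀ n : ℕ,
    ev (List.replicate n 0 ++ l) x = x ^ n * ev l x
  | 0 => by simp
  | n + 1 => by
    simp only [List.replicate_succ, List.cons_append, ev_cons, ev_shift x l n]
    push_cast
    ring

theorem ev_neg {R : Type} [CommRing R] (x : R) : ∀ l : List ℤ,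
    ev (l.map (fun c => -c)) x = - ev l x
  | [] => by simp
  | c :: l => by
    simp only [List.map_cons, ev_cons, ev_neg x l]
    push_cast
    ring

theorem map_ev {R S : Type} [CommRing R] [CommRing S] (φ : R →+* S) (x : R) : ∀ l : List ℤ,
    φ (ev l x) = ev l (φ x)
  | [] => by simp
  | c :: l => by simp [map_ev φ x l]

/-- The sum of the absolute values of the coefficients. -/
def nrm (l : List ℤ) : ℕ := (l.map Int.natAbs).sum

theorem nrm_addL : ∀ a b : List ℤ, nrm (addL a b) ≤ nrm a + nrm b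
  | [], b => by simp [addL, nrm]
  | a :: as, [] => by simp [addL, nrm]
  | a :: as, b :: bs => by
    have := nrm_addL as bs
    have h2 := Int.natAbs_add_le a b
    simp only [addL, nrm, List.map_cons, List.sum_cons] at this ⊢
    omega

theorem nrm_shift (l : List ℤ) (n : ℕ) : nrm (List.replicate n 0 ++ l) = nrm l := by
  simp [nrm]

theorem ev_eq_zero_of_kron {R : Type} [CommRing R] (x : R) (B : ℕ) : ∀ l : List ℤ,
    nrm l < B → ev l (B : ℤ) = 0 → ev l x = 0
  | [], _, _ => rfl
  | c :: l, h1, h2 => by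
    simp only [nrm, List.map_cons, List.sum_cons] at h1
    simp only [ev_cons, Int.cast_id] at h2
    have hc : c = 0 := by
      have hdvd : (B : ℤ) ∣ c := ⟨- ev l (B : ℤ), by linarith⟩
      exact Int.eq_zero_of_dvd_of_natAbs_lt_natAbs hdvd (by simp; omega)
    subst hc
    have hB : (B : ℤ) ≠ 0 := by
      have : 0 < B := by omega
      exact_mod_cast this.ne'
    have h3 : ev l (B : ℤ) = 0 := by
      rw [zero_add] at h2
      exact (mul_eq_zero.1 h2).resolve_left hB
    have := ev_eq_zero_of_kron x B l (by unfold nrm; omega) h3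
    simp [this]

theorem ev_row {R : Type} [CommRing R] (x : R) (a : ℕ) : ∀ l : List (ℕ × ℕ × List ℤ),
    ev (row a l) x = (l.map (fun e => x ^ dm a e.1 * ev (tbl.getD e.2.1 []) x)).sum
  | [] => rfl
  | e :: l => by
    have := ev_row x a l
    simp only [row, List.foldr_cons, ev_addL, ev_shift, List.map_cons, List.sum_cons] at this ⊢
    rw [this]

theorem tbl_facts : ∀ t < 10, nrm (tbl.getD t []) ≤ 50 ∧
    ev (tbl.getD t []) ((65536 : ℕ) : ℤ) = (vals.getD t 0 : ℕ) := by
  decide +kernel

theorem nrm_row (a : ℕ) : ∀ l : List (ℕ × ℕ × List ℤ), (∀ e ∈ l, e.2.1 < 10) →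
    nrm (row a l) ≤ 50 * l.length
  | [], _ => by simp [row, nrm]
  | e :: l, h => by
    have h1 := nrm_row a l (fun e he => h e (List.mem_cons_of_mem _ he))
    have h2 := (tbl_facts _ (h e List.mem_cons_self)).1
    have h3 := nrm_addL (List.replicate (dm a e.1) 0 ++ tbl.getD e.2.1 []) (row a l)
    rw [nrm_shift] at h3
    have h4 : row a (e :: l) =
      addL (List.replicate (dm a e.1) 0 ++ tbl.getD e.2.1 []) (row a l) := rfl
    rw [h4, List.length_cons]
    omega

theorem ev_row_B (a : ℕ) (ha : a < 1024) : ∀ l : List (ℕ × ℕ × List ℤ),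
    (∀ e ∈ l, e.2.1 < 10 ∧ e.1 < 1024) → ev (row a l) ((65536 : ℕ) : ℤ) = (rowN a l : ℕ)
  | [], _ => rfl
  | e :: l, h => by
    have h1 := ev_row_B a ha l (fun e he => h e (List.mem_cons_of_mem _ he))
    have h2 := (tbl_facts _ (h e List.mem_cons_self).1).2
    have h4 : row a (e :: l) =
      addL (List.replicate (dm a e.1) 0 ++ tbl.getD e.2.1 []) (row a l) := rfl
    have h5 : rowN a (e :: l) = (vals.getD e.2.1 0) <<< (16 * dmF a e.1) + rowN a l := rfl
    rw [h4, ev_addL, ev_shift, h1, h2, h5, Nat.shiftLeft_eq,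
      dm_eq_dmF ha (h e List.mem_cons_self).2, pow_mul]
    push_cast
    ring

theorem row_sum {R : Type} [CommRing R] (x : R) (e : ℕ × ℕ × List ℤ) (he : e ∈ data) :
    (data.map (fun e' => x ^ dm e.1 e'.1 * ev (tbl.getD e'.2.1 []) x)).sum = ev den x := by
  rw [← ev_row]
  have h := ev_eq_zero_of_kron x 65536 (addL (row e.1 data) (den.map (fun c => -c))) ?_ ?_
  · rw [ev_addL, ev_neg] at h
    exact eq_of_sub_eq_zero (by rw [sub_eq_add_neg]; exact h)
  · have h1 := nrm_addL (row e.1 data) (den.map (fun c => -c))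
    have h2 := nrm_row e.1 data (fun e he => (type_lt e he).1)
    have h3 : nrm (den.map (fun c => -c)) ≤ 4000 := by decide +kernel
    rw [data_length] at h2
    omega
  · rw [ev_addL, ev_neg, ev_row_B _ (type_lt e he).2 _ type_lt, rowN_eq e he]
    decide +kernel

theorem den_factor {R : Type} [CommRing R] (x : R) :
    ev den x * (1 - x) ^ 6 =
      (1 - x ^ 2) ^ 2 * (1 - x ^ 3) * (1 - x ^ 4) * (1 - x ^ 7) * (1 - x ^ 10) := by
  simp only [den, ev_cons, ev_nil]
  push_cast
  ring

theorem not_cyc_dvd : ¬ (Polynomial.cyclotomic 20 ℚ ∣ ev den (Polynomial.X : Polynomial ℚ)) := by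
  intro h
  have hζ := Complex.isPrimitiveRoot_exp 20 (by norm_num)
  set ζ := Complex.exp (2 * Real.pi * Complex.I / (20 : ℕ)) with hζdef
  have h0 : Polynomial.aeval ζ (Polynomial.cyclotomic 20 ℚ) = 0 := by
    have := hζ.isRoot_cyclotomic (by norm_num)
    rw [Polynomial.aeval_def, Polynomial.eval₂_eq_eval_map, Polynomial.map_cyclotomic]
    exact this
  have h1 : ev den ζ = 0 := by
    obtain ⟨q, hq⟩ := h
    have h2 := map_ev (Polynomial.aeval (R := ℚ) ζ).toRingHom Polynomial.X den
    simp only [AlgHom.toRingHom_eq_coe, RingHom.coe_coe, Polynomial.aeval_X] at h2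
    rw [← h2, hq, map_mul, h0, zero_mul]
  have h3 := den_factor ζ
  rw [h1, zero_mul] at h3
  have hne : ∀ a : ℕ, 0 < a → a < 20 → (1 - ζ ^ a) ≠ 0 := by
    intro a ha ha' h
    exact hζ.pow_ne_one_of_pos_of_lt ha.ne' ha' (by linear_combination -h)
  exact mul_ne_zero (mul_ne_zero (mul_ne_zero (mul_ne_zero
    (pow_ne_zero _ (hne 2 (by norm_num) (by norm_num))) (hne 3 (by norm_num) (by norm_num)))
    (hne 4 (by norm_num) (by norm_num))) (hne 7 (by norm_num) (by norm_num)))
    (hne 10 (by norm_num) (by norm_num)) h3.symm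

theorem den_ne_zero : ev den (Polynomial.X : Polynomial ℚ) ≠ 0 := by
  intro h
  exact not_cyc_dvd (h ▸ dvd_zero _)

end Pool.Agent.Lib.MP_0e848e_co
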