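import Pool.Agent.Lib.MP_0e848e_co.Defs
import Pool.Agent.Lib.MP_0e848e_co.Poly

set_option autoImplicit false

namespace Pool.Agent.Lib.MP_0e848e_co

/-- The coordinate forms. -/
def pr (i : Fin 5) : (Fin 5 → ℝ) →ₗ[ℝ] ℝ := LinearMap.proj i

@[simp] theorem pr_apply (i : Fin 5) (x : Fin 5 → ℝ) : pr i x = x i := rfl

/-- The ten linear forms `x_i` and `x_i - x_(i+1)`. -/
noncomputable def F (j : Fin 10) : (Fin 5 → ℝ) →ₗ[ℝ] ℝ :=
  ![pr 0, pr 1, pr 2, pr 3, pr 4, pr 0 - pr 1, pr 1 - pr 2, pr 2 - pr 3, pr 3 - pr 4,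
    pr 4 - pr 0] j

/-- The real point with the given integer coordinates. -/
def pt (v : List ℤ) : Fin 5 → ℝ := fun i => ((v.getD i 0 : ℤ) : ℝ)

theorem F_pt (j : Fin 10) (v : List ℤ) : F j (pt v) = (Fz j v : ℝ) := by
  fin_cases j <;> simp [F, Fz, pt]

theorem F_ne_zero (j : Fin 10) : F j ≠ 0 := by
  intro h
  have h1 := F_pt j [1, 2, 3, 4, 5]
  have h2 : ∀ j : Fin 10, Fz j [1, 2, 3, 4, 5] ≠ 0 := by decide
  rw [h, LinearMap.zero_apply] at h1
  exact h2 j (by exact_mod_cast h1.symm)

theorem ker_inj : Function.Injective (fun j => LinearMap.ker (F j)) := by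
  intro j j' h
  by_contra hne
  obtain ⟨v, -, h1, h2⟩ := ker_test j j' hne
  have h3 : pt v ∈ LinearMap.ker (F j) := by
    rw [LinearMap.mem_ker, F_pt, h1]; simp
  simp only at h
  rw [h, LinearMap.mem_ker, F_pt] at h3
  exact h2 (by exact_mod_cast h3)

open Classical in
/-- The graphic arrangement of the wheel with five spokes. -/
noncomputable def wheel : Arrangement 5 where
  hyps := Finset.univ.image (fun j => LinearMap.ker (F j))
  isHyp := by
    intro H hH
    obtain ⟨j, -, rfl⟩ := Finset.mem_image.1 hH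
    simpa using Module.Dual.finrank_ker_add_one_of_ne_zero (F_ne_zero j)

theorem mem_hyps {H : Submodule ℝ (Fin 5 → ℝ)} :
    H ∈ wheel.hyps ↔ ∃ j, LinearMap.ker (F j) = H := by
  simp [wheel]

theorem card_hyps : wheel.hyps.card = 10 := by
  classical
  have := Finset.card_image_of_injective Finset.univ ker_inj
  simpa [wheel] using this

theorem mem_compl (x : Fin 5 → ℝ) : x ∈ wheel.compl ↔ ∀ j, F j x ≠ 0 := by
  constructor
  · intro h j hj
    exact h _ (mem_hyps.2 ⟨j, rfl⟩) hj
  · intro h H hH hx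
    obtain ⟨j, rfl⟩ := mem_hyps.1 hH
    exact h j hx

theorem eq_zero_of_all (x : Fin 5 → ℝ) (h : ∀ j, F j x = 0) : x = 0 := by
  have h0 := h 0
  have h1 := h 1
  have h2 := h 2
  have h3 := h 3
  have h4 := h 4
  simp [F] at h0 h1 h2 h3 h4
  ext i
  fin_cases i <;> simp [h0, h1, h2, h3, h4]

theorem rk_hyps : rk wheel.hyps = 5 := by
  have : (⨅ H ∈ wheel.hyps, H : Submodule ℝ (Fin 5 → ℝ)) = ⊥ := by
    rw [Submodule.eq_bot_iff]
    intro x hx
    simp only [Submodule.mem_iInf] at hx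
    exact eq_zero_of_all x fun j => hx _ (mem_hyps.2 ⟨j, rfl⟩)
  rw [rk, this]
  simp

theorem irred : wheel.Irreducible := by
  intro B B' hB hB' hdis hcov
  by_contra hle
  rw [rk_hyps, not_lt, rk, rk] at hle
  set U : Submodule ℝ (Fin 5 → ℝ) := ⨅ H ∈ B, H with hU
  set W : Submodule ℝ (Fin 5 → ℝ) := ⨅ H ∈ B', H with hW
  have hinf : U ⊓ W = ⊥ := by
    rw [Submodule.eq_bot_iff]
    intro x hx
    rw [Submodule.mem_inf, hU, hW] at hx
    simp only [Submodule.mem_iInf] at hx
    refine eq_zero_of_all x fun j => ?_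
    rcases (hcov _).1 (mem_hyps.2 ⟨j, rfl⟩) with h | h
    · exact hx.1 _ h
    · exact hx.2 _ h
  have hsup : U ⊔ W = ⊤ := by
    have h1 := Submodule.finrank_sup_add_finrank_inf_eq U W
    rw [hinf, finrank_bot] at h1
    apply Submodule.eq_top_of_finrank_eq
    have h2 := Submodule.finrank_le (U ⊔ W)
    simp only [Module.finrank_fin_fun] at h2 ⊢
    omega
  have hzero : ∀ j, (∀ x ∈ U, F j x = 0) → (∀ x ∈ W, F j x = 0) → False := by
    intro j h1 h2
    apply F_ne_zero j
    refine LinearMap.ext fun x => ?_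
    have hx : x ∈ U ⊔ W := by rw [hsup]; trivial
    obtain ⟨u, hu, w, hw, rfl⟩ := Submodule.mem_sup.1 hx
    simp [h1 u hu, h2 w hw]
  let s : Fin 10 → Prop := fun j => LinearMap.ker (F j) ∈ B
  have hsU : ∀ j, s j → ∀ x ∈ U, F j x = 0 := by
    intro j hj x hx
    rw [hU] at hx
    simp only [Submodule.mem_iInf] at hx
    exact hx _ hj
  have hsW : ∀ j, ¬ s j → ∀ x ∈ W, F j x = 0 := by
    intro j hj x hx
    rw [hW] at hx
    simp only [Submodule.mem_iInf] at hx
    exact hx _ (((hcov _).1 (mem_hyps.2 ⟨j, rfl⟩)).resolve_left hj)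
  have tri : ∀ a b c : Fin 10, (∀ x, F b x = 0 → F c x = 0 → F a x = 0) →
      ((s b ↔ s c) → (s a ↔ s b)) := by
    intro a b c h hbc
    by_cases ha : s a <;> by_cases hb : s b
    · simp [ha, hb]
    · exact (hzero a (hsU a ha) fun x hx =>
        h x (hsW b hb x hx) (hsW c (fun hc => hb (hbc.2 hc)) x hx)).elim
    · exact (hzero a (fun x hx => h x (hsU b hb x hx) (hsU c (hbc.1 hb) x hx)) (hsW a ha)).elim
    · simp [ha, hb]
  have tri3 : ∀ a b c : Fin 10, (∀ x, F c x = F a x - F b x) → ((s a ↔ s b) ∧ (s a ↔ s c)) := by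
    intro a b c h
    have h1 := tri a b c (fun x hb hc => by have := h x; linarith)
    have h2 := tri b a c (fun x hb hc => by have := h x; linarith)
    have h3 := tri c a b (fun x hb hc => by have := h x; linarith)
    tauto
  have t0 := tri3 0 1 5 (fun x => by simp [F])
  have t1 := tri3 1 2 6 (fun x => by simp [F])
  have t2 := tri3 2 3 7 (fun x => by simp [F])
  have t3 := tri3 3 4 8 (fun x => by simp [F])
  have t4 := tri3 4 0 9 (fun x => by simp [F])
  have hall : ∀ j, s 0 ↔ s j := by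
    intro j
    fin_cases j
    · exact Iff.rfl
    · exact t0.1
    · exact t0.1.trans t1.1
    · exact (t0.1.trans t1.1).trans t2.1
    · exact t4.1.symm
    · exact t0.2
    · exact t0.1.trans t1.2
    · exact (t0.1.trans t1.1).trans t2.2
    · exact ((t0.1.trans t1.1).trans t2.1).trans t3.2
    · exact t4.1.symm.trans t4.2
  obtain ⟨H, hH⟩ := hB
  obtain ⟨H', hH'⟩ := hB'
  obtain ⟨j, rfl⟩ := mem_hyps.1 ((hcov H).2 (Or.inl hH))
  obtain ⟨j', rfl⟩ := mem_hyps.1 ((hcov H').2 (Or.inr hH'))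
  have : s j' := (hall j').1 ((hall j).2 hH)
  exact Finset.disjoint_left.1 hdis this hH'

theorem mul_pos_congr {a b y : ℝ} (ha : a ≠ 0) (hb : b ≠ 0) (h : 0 < a ↔ 0 < b) :
    0 < a * y ↔ 0 < b * y := by
  rcases lt_or_gt_of_ne ha with h4 | h4
  · have h5 : b < 0 := lt_of_le_of_ne (not_lt.1 fun h' => h4.not_gt (h.2 h')) hb
    rw [mul_pos_iff, mul_pos_iff]
    simp [h4, h5, h4.not_gt, h5.not_gt]
  · have h5 := h.1 h4
    rw [mul_pos_iff_of_pos_left h4, mul_pos_iff_of_pos_left h5]

theorem pt_facts (e : ℕ × ℕ × List ℤ) (he : e ∈ data) (j : Fin 10) :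
    F j (pt e.2.2) ≠ 0 ∧ (e.1.testBit j = true ↔ 0 < F j (pt e.2.2)) := by
  obtain ⟨h1, h2⟩ := data_sign e he j
  rw [F_pt, h2]
  exact ⟨by exact_mod_cast h1, by simp⟩

/-- The chamber with index `k`. -/
def ch (k : Fin data.length) : wheel.Chamber :=
  ⟨connectedComponentIn wheel.compl (pt data[k.1].2.2), pt data[k.1].2.2,
    (mem_compl _).2 fun j => (pt_facts _ (List.getElem_mem _) j).1, rfl⟩

theorem ch_val (k : Fin data.length) :
    (ch k).1 = {y | ∀ j, 0 < F j (pt data[k.1].2.2) * F j y} :=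
  component_eq F _ mem_compl _ ((mem_compl _).2 fun j => (pt_facts _ (List.getElem_mem _) j).1)

theorem separates_iff (x y : Fin 5 → ℝ) (hx : ∀ j, F j x ≠ 0) (hy : ∀ j, F j y ≠ 0)
    (j : Fin 10) :
    Separates (LinearMap.ker (F j)) {z | ∀ j, 0 < F j x * F j z} {z | ∀ j, 0 < F j y * F j z} ↔
      ¬ (0 < F j x ↔ 0 < F j y) := by
  constructor
  · rintro ⟨g, hg, h1, h2⟩ hsame
    have gx : 0 < g x := h1 x fun j => mul_self_pos.2 (hx j)
    have gy : g y < 0 := h2 y fun j => mul_self_pos.2 (hy j)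
    have hz : g x • y - g y • x ∈ LinearMap.ker g := by
      simp [LinearMap.mem_ker, mul_comm]
    rw [hg, LinearMap.mem_ker] at hz
    simp only [map_sub, map_smul, smul_eq_mul] at hz
    have h3 : 0 < F j x * F j y := (mul_pos_congr (hx j) (hy j) hsame).2 (mul_self_pos.2 (hy j))
    have h4 : 0 < F j x * F j x := mul_self_pos.2 (hx j)
    have h5 : F j x * (g x * F j y - g y * F j x) = 0 := by rw [hz, mul_zero]
    nlinarith [mul_pos gx h3, mul_pos (neg_pos.2 gy) h4]
  · intro h
    refine ⟨F j x • F j, ?_, fun z hz => hz j, fun z hz => ?_⟩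
    · exact LinearMap.ker_smul _ _ (hx j)
    · have h1 := hz j
      have h2 : (0 < -F j x ↔ 0 < F j y) := by
        have := hx j
        have := hy j
        constructor
        · intro h3
          by_contra h4
          exact h ⟨fun h5 => absurd h5 (by linarith), fun h5 => absurd h5 h4⟩
        · intro h3
          by_contra h4
          have : 0 < F j x := lt_of_le_of_ne (by linarith) (Ne.symm (hx j))
          exact h ⟨fun _ => h3, fun _ => this⟩
      have h3 := (mul_pos_congr (neg_ne_zero.2 (hx j)) (hy j) h2).2 h1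
      simp only [LinearMap.smul_apply, smul_eq_mul]
      linarith

theorem card_bits (a b : ℕ) :
    {j : Fin 10 | ¬ (a.testBit j = true ↔ b.testBit j = true)}.ncard = dm a b := by
  have h1 : {j : Fin 10 | ¬ (a.testBit j = true ↔ b.testBit j = true)} =
      ↑(Finset.univ.filter (fun j : Fin 10 => (a ^^^ b).testBit j = true)) := by
    ext j
    simp only [Set.mem_ofPred_eq, Finset.coe_filter, Finset.mem_univ, true_and, Nat.testBit_xor]
    cases a.testBit j <;> cases b.testBit j <;> simp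
  rw [h1, Set.ncard_coe_finset, Finset.card_filter]
  have h2 : ∀ t : Bool, (if t = true then 1 else 0) = t.toNat := by
    intro t; cases t <;> rfl
  simp only [h2, Fin.sum_univ_succ, Fin.sum_univ_zero, dm, ← add_assoc, add_zero]
  rfl

theorem sep_ch (k l : Fin data.length) : wheel.sep (ch k) (ch l) = dm data[k.1].1 data[l.1].1 := by
  rw [← card_bits, Arrangement.sep, ← Set.ncard_image_of_injective _ ker_inj]
  congr 1
  ext H
  have hk := pt_facts _ (List.getElem_mem k.2)
  have hl := pt_facts _ (List.getElem_mem l.2)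
  simp only [Set.mem_ofPred_eq, Set.mem_image, mem_hyps, ch_val]
  constructor
  · rintro ⟨⟨j, rfl⟩, h⟩
    refine ⟨j, ?_, rfl⟩
    rw [(hk j).2, (hl j).2]
    exact (separates_iff _ _ (fun j => (hk j).1) (fun j => (hl j).1) j).1 h
  · rintro ⟨j, h, rfl⟩
    refine ⟨⟨j, rfl⟩, ?_⟩
    rw [(hk j).2, (hl j).2] at h
    exact (separates_iff _ _ (fun j => (hk j).1) (fun j => (hl j).1) j).2 h

theorem dm_comm (a b : ℕ) : dm a b = dm b a := by simp only [dm, Nat.xor_comm a b]

theorem dm_self (a : ℕ) : dm a a = 0 := by simp [dm]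

theorem dm_ne_zero (k l : Fin data.length) (h : k ≠ l) : dm data[k.1].1 data[l.1].1 ≠ 0 := by
  have key : ∀ k l : Fin data.length, k < l → dm data[k.1].1 data[l.1].1 ≠ 0 := by
    intro k l hkl
    rw [dm_eq_dmF (type_lt _ (List.getElem_mem _)).2 (type_lt _ (List.getElem_mem _)).2]
    exact List.pairwise_iff_getElem.1 data_pairwise k.1 l.1 k.2 l.2 hkl
  rcases lt_or_gt_of_ne h with h | h
  · exact key k l h
  · rw [dm_comm]; exact key l k h

theorem ch_inj : Function.Injective ch := by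
  intro k l h
  by_contra hne
  apply dm_ne_zero k l hne
  rw [← sep_ch, ← h, sep_ch, dm_self]

theorem ch_surj : Function.Surjective ch := by
  rintro ⟨C, x, hx, rfl⟩
  have hx' := (mem_compl x).1 hx
  have e0 : F 0 x = x 0 := by simp [F]
  have e1 : F 1 x = x 1 := by simp [F]
  have e2 : F 2 x = x 2 := by simp [F]
  have e3 : F 3 x = x 3 := by simp [F]
  have e4 : F 4 x = x 4 := by simp [F]
  have e5 : F 5 x = x 0 - x 1 := by simp [F]
  have e6 : F 6 x = x 1 - x 2 := by simp [F]
  have e7 : F 7 x = x 2 - x 3 := by simp [F]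
  have e8 : F 8 x = x 3 - x 4 := by simp [F]
  have e9 : F 9 x = x 4 - x 0 := by simp [F]
  have hneg : ∀ j, ¬ 0 < F j x → F j x < 0 := fun j h => lt_of_le_of_ne (not_lt.1 h) (hx' j)
  have hall := data_all (decide (0 < F 0 x)) (decide (0 < F 1 x)) (decide (0 < F 2 x))
    (decide (0 < F 3 x)) (decide (0 < F 4 x)) (decide (0 < F 5 x)) (decide (0 < F 6 x))
    (decide (0 < F 7 x)) (decide (0 < F 8 x)) (decide (0 < F 9 x))
  simp only [decide_eq_true_eq] at hall
  obtain ⟨e, he, b0, b1, b2, b3, b4, b5, b6, b7, b8, b9⟩ := hall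
    (fun h => by linarith [h.1, hneg _ h.2.1, hneg _ h.2.2])
    (fun h => by linarith [hneg _ h.1, h.2.1, h.2.2])
    (fun h => by linarith [h.1, hneg _ h.2.1, hneg _ h.2.2])
    (fun h => by linarith [hneg _ h.1, h.2.1, h.2.2])
    (fun h => by linarith [h.1, hneg _ h.2.1, hneg _ h.2.2])
    (fun h => by linarith [hneg _ h.1, h.2.1, h.2.2])
    (fun h => by linarith [h.1, hneg _ h.2.1, hneg _ h.2.2])
    (fun h => by linarith [hneg _ h.1, h.2.1, h.2.2])
    (fun h => by linarith [h.1, hneg _ h.2.1, hneg _ h.2.2])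
    (fun h => by linarith [hneg _ h.1, h.2.1, h.2.2])
    (fun h => by linarith [h.1, h.2.1, h.2.2.1, h.2.2.2.1, h.2.2.2.2])
    (fun h => by
      linarith [hneg _ h.1, hneg _ h.2.1, hneg _ h.2.2.1, hneg _ h.2.2.2.1, hneg _ h.2.2.2.2])
  obtain ⟨k, hk, rfl⟩ := List.getElem_of_mem he
  refine ⟨⟨k, hk⟩, Subtype.ext ?_⟩
  show (ch ⟨k, hk⟩).1 = connectedComponentIn wheel.compl x
  rw [ch_val, component_eq F _ mem_compl x hx]
  have hb : ∀ j : Fin 10, data[k].1.testBit j = decide (0 < F j x) := by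
    intro j
    fin_cases j
    exacts [b0, b1, b2, b3, b4, b5, b6, b7, b8, b9]
  ext y
  refine forall_congr' fun j => ?_
  have h1 := pt_facts _ he j
  refine mul_pos_congr h1.1 (hx' j) ?_
  rw [← h1.2, hb j]
  simp

/-- The chambers are indexed by the table. -/
noncomputable def chE : Fin data.length ≃ wheel.Chamber := Equiv.ofBijective ch ⟨ch_inj, ch_surj⟩

theorem deg_ch (k : Fin data.length) : (wheel.topeGraph.neighborSet (ch k)).ncard =
    (data.filter (fun e => dm data[k.1].1 e.1 = 1)).length := by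
  have h1 : wheel.topeGraph.neighborSet (ch k) =
      ch '' ↑(Finset.univ.filter (fun l : Fin data.length => dm data[k.1].1 data[l.1].1 = 1)) := by
    ext D
    obtain ⟨l, rfl⟩ := ch_surj D
    rw [ch_inj.mem_set_image]
    simp only [SimpleGraph.mem_neighborSet, Arrangement.topeGraph, SimpleGraph.fromRel_adj,
      sep_ch, Finset.coe_filter, Finset.mem_univ, true_and, Set.mem_ofPred_eq]
    rw [dm_comm data[l.1].1, or_self]
    refine ⟨fun h => h.2, fun h => ⟨?_, h⟩⟩
    intro h2
    rw [ch_inj h2, dm_self] at h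
    exact absurd h (by norm_num)
  rw [h1, Set.ncard_image_of_injective _ ch_inj, Set.ncard_coe_finset, Finset.card_filter,
    Fin.sum_univ_fun_getElem data (fun e => if dm data[k.1].1 e.1 = 1 then 1 else 0),
    ← List.countP_eq_length_filter]
  generalize data[k.1].1 = a
  induction data with
  | nil => rfl
  | cons e l ih =>
    rw [List.map_cons, List.sum_cons, List.countP_cons, ih]
    by_cases h : dm a e.1 = 1 <;> simp [h, add_comm]

theorem not_vt : ¬ VertexTransitive wheel.topeGraph := by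
  intro h
  obtain ⟨ea, hea, ha⟩ := mem_a
  obtain ⟨eb, heb, hb⟩ := mem_b
  obtain ⟨k, hk, rfl⟩ := List.getElem_of_mem hea
  obtain ⟨l, hl, rfl⟩ := List.getElem_of_mem heb
  obtain ⟨φ, hφ⟩ := h (ch ⟨k, hk⟩) (ch ⟨l, hl⟩)
  have h1 := Set.ncard_congr' (φ.mapNeighborSet (ch ⟨k, hk⟩))
  rw [hφ, deg_ch, deg_ch] at h1
  simp only [ha, hb, deg_a, deg_b] at h1
  exact absurd h1 (by norm_num)

theorem mag_eq : ∃ P : Polynomial ℚ, wheel.mag =
    algebraMap _ (RatFunc ℚ) P / algebraMap _ (RatFunc ℚ) (ev den (Polynomial.X : Polynomial ℚ)) := by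
  classical
  let _ := Fintype.ofFinite wheel.Chamber
  let a : Polynomial ℚ →+* RatFunc ℚ := algebraMap _ _
  have hD : a (ev den Polynomial.X) ≠ 0 :=
    (map_ne_zero_iff _ (RatFunc.algebraMap_injective ℚ)).2 den_ne_zero
  let p : wheel.Chamber → Polynomial ℚ := fun C =>
    ev (tbl.getD data[(chE.symm C).1].2.1 []) Polynomial.X
  let w : wheel.Chamber → RatFunc ℚ := fun C => a (p C) / a (ev den Polynomial.X)
  have hX : (RatFunc.X : RatFunc ℚ) = a Polynomial.X := rfl
  have hw : wheel.varchenko.mulVec w = fun _ => 1 := by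
    ext C
    obtain ⟨k, rfl⟩ := ch_surj C
    simp only [Matrix.mulVec, dotProduct, Arrangement.varchenko]
    rw [← chE.sum_comp]
    have h1 : ∀ l : Fin data.length, RatFunc.X ^ wheel.sep (ch k) (chE l) * w (chE l) =
        a (Polynomial.X ^ dm data[k.1].1 data[l.1].1 *
          ev (tbl.getD data[l.1].2.1 []) Polynomial.X) / a (ev den Polynomial.X) := by
      intro l
      have : wheel.sep (ch k) (chE l) = dm data[k.1].1 data[l.1].1 := sep_ch k l
      simp only [this, w, p, Equiv.symm_apply_apply, map_mul, map_pow, hX, mul_div_assoc]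
    simp only [h1]
    rw [← Finset.sum_div, ← map_sum, Fin.sum_univ_fun_getElem data
      (fun e' => (Polynomial.X : Polynomial ℚ) ^ dm data[k.1].1 e'.1 *
        ev (tbl.getD e'.2.1 []) Polynomial.X), row_sum _ _ (List.getElem_mem _), div_self hD]
  have hdet : wheel.varchenko.det ≠ 0 := by
    let M : Matrix wheel.Chamber wheel.Chamber (Polynomial ℚ) :=
      fun C D => Polynomial.X ^ wheel.sep C D
    have h1 : wheel.varchenko = a.mapMatrix M := by
      ext C D
      simp [M, Arrangement.varchenko, hX]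
    rw [h1, ← RingHom.map_det]
    refine (map_ne_zero_iff _ (RatFunc.algebraMap_injective ℚ)).2 ?_
    intro h
    have h2 : (Polynomial.evalRingHom (0 : ℚ)).mapMatrix M = 1 := by
      ext C D
      obtain ⟨k, rfl⟩ := ch_surj C
      obtain ⟨l, rfl⟩ := ch_surj D
      by_cases hkl : k = l
      · subst hkl
        simp [M, sep_ch, dm_self]
      · have := dm_ne_zero k l hkl
        simp [M, sep_ch, this, ch_inj.ne hkl]
    have h3 := RingHom.map_det (Polynomial.evalRingHom (0 : ℚ)) M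
    rw [h, h2] at h3
    simp at h3
  refine ⟨∑ C, p C, ?_⟩
  have h4 : (wheel.varchenko)⁻¹.mulVec (fun _ => 1) = w := by
    rw [← hw, Matrix.mulVec_mulVec, Matrix.nonsing_inv_mul _ (Ne.isUnit hdet), Matrix.one_mulVec]
  have h5 : wheel.mag = ∑ C, w C := by
    rw [← h4]
    simp only [Arrangement.mag, Matrix.mulVec, dotProduct, mul_one]
  rw [h5, map_sum, Finset.sum_div]

theorem not_dvd_denom : ¬ (Polynomial.cyclotomic 20 ℚ ∣ wheel.mag.denom) := by
  intro h
  exact not_cyc_dvd (h.trans ((RatFunc.denom_dvd den_ne_zero).2 mag_eq))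

end Pool.Agent.Lib.MP_0e848e_co
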